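import Mathlib

/-!
# The fibre lemma (row POLY / IMAGES of K_GEN)

A map of `[-1, 1] ^ p` to `ℝ ^ c` with bounded second differences: the number of points of the grid
of mesh `2 ^ (-X)` which have a given image, to `X` digits, and at which a fixed `c × c` minor of
the differential has size at least `δ`, is at most `C * 2 ^ ((p - c) * X) * δ ^ (-2 c)`.
-/

set_option autoImplicit false

namespace Pool.KG

open Finset

/-- The vector is controlled by its image under a matrix with a large determinant. -/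
theorem le_of_det {c : ℕ} (J : Matrix (Fin c) (Fin c) ℝ) (h : Fin c → ℝ) {A δ e : ℝ} (hA : 1 ≤ A)
    (hδ : 0 < δ) (hJ : ∀ i j, |J i j| ≤ A) (hd : δ ≤ |J.det|) (he : ∀ i, |∑ j, J i j * h j| ≤ e)
    (j : Fin c) : |h j| ≤ (c * (c.factorial * A ^ c)) / δ * e := by
  have h1 : J.adjugate.mulVec (J.mulVec h) = J.det • h := by
    rw [Matrix.mulVec_mulVec, Matrix.adjugate_mul, Matrix.smul_mulVec, Matrix.one_mulVec]
  have h2 : J.det * h j = ∑ i, J.adjugate j i * ∑ l, J i l * h l := by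
    have h3 := congrFun h1 j
    simp only [Pi.smul_apply, smul_eq_mul] at h3
    rw [← h3]
    rfl
  have h4 : ∀ i, |J.adjugate j i| ≤ c.factorial * A ^ c := by
    intro i
    rw [Matrix.adjugate_apply]
    have h5 := Matrix.det_le (A := J.updateRow i (Pi.single j 1)) (abv := AbsoluteValue.abs)
      (x := A) (by
        intro a b
        rcases eq_or_ne a i with rfl | hai
        · rw [Matrix.updateRow_self]
          rcases eq_or_ne b j with rfl | hbj
          · simpa using hA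
          · simpa [hbj] using zero_le_one.trans hA
        · rw [Matrix.updateRow_ne hai]
          exact hJ a b)
    simpa [nsmul_eq_mul] using h5
  have h6 : |J.det * h j| ≤ c * ((c.factorial * A ^ c) * e) := by
    rw [h2]
    refine (Finset.abs_sum_le_sum_abs _ _).trans ?_
    have h7 : ∀ i ∈ (univ : Finset (Fin c)), |J.adjugate j i * ∑ l, J i l * h l| ≤
        (c.factorial * A ^ c) * e := by
      intro i _
      rw [abs_mul]
      exact mul_le_mul (h4 i) (he i) (abs_nonneg _) ((abs_nonneg _).trans (h4 i))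
    refine (Finset.sum_le_card_nsmul _ _ _ h7).trans ?_
    simp [nsmul_eq_mul]
  rw [abs_mul] at h6
  have h8 : 0 ≤ e := (abs_nonneg _).trans (he j)
  have h9 : δ * |h j| ≤ c * ((c.factorial * A ^ c) * e) :=
    (mul_le_mul_of_nonneg_right hd (abs_nonneg _)).trans h6
  rw [div_mul_eq_mul_div, le_div_iff₀ hδ]
  linarith [h9]

/-- Two points in one small cell with the same image and the same passive coordinates. -/
theorem near_of_cell {p c : ℕ} {A δ r t : ℝ} (hA : 1 ≤ A) (hδ : 0 < δ)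
    (F : (Fin p → ℝ) → Fin c → ℝ) (D : (Fin p → ℝ) → Fin c → Fin p → ℝ) (κ : Fin c → Fin p)
    (hκ : Function.Injective κ) (u u' : Fin p → ℝ)
    (hT : ∀ M : ℝ, (∀ j, |u' j - u j| ≤ M) → ∀ i,
      |F u' i - F u i - ∑ j, D u i j * (u' j - u j)| ≤ A * M ^ 2)
    (hD : ∀ i j, |D u i j| ≤ A) (hd : δ ≤ |(Matrix.of fun i j => D u i (κ j)).det|)
    (hF : ∀ i, |F u' i - F u i| ≤ t) (hp : ∀ j, j ∉ Set.range κ → u' j = u j)
    (hr : 2 * (c * (c.factorial * A ^ c)) * A * r ≤ δ) (hc : ∀ j, |u' (κ j) - u (κ j)| ≤ r)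
    (j : Fin c) : |u' (κ j) - u (κ j)| ≤ 2 * (c * (c.factorial * A ^ c)) / δ * t := by
  classical
  obtain ⟨B, hB⟩ : ∃ B : ℝ, B = c * (c.factorial * A ^ c) := ⟨_, rfl⟩
  rw [← hB] at hr ⊢
  have hB0 : 0 ≤ B := by rw [hB]; positivity
  obtain ⟨j₀, -, hj₀⟩ := Finset.exists_max_image (univ : Finset (Fin c))
    (fun j => |u' (κ j) - u (κ j)|) ⟨j, mem_univ j⟩
  obtain ⟨M, hM⟩ : ∃ M, M = |u' (κ j₀) - u (κ j₀)| := ⟨_, rfl⟩
  have hM0 : 0 ≤ M := by rw [hM]; exact abs_nonneg _
  have hMr : M ≤ r := by rw [hM]; exact hc j₀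
  have hall : ∀ j, |u' j - u j| ≤ M := by
    intro j
    by_cases hj : j ∈ Set.range κ
    · obtain ⟨l, rfl⟩ := hj
      rw [hM]
      exact hj₀ l (mem_univ l)
    · rw [hp j hj, sub_self, abs_zero]
      exact hM0
  have hsum : ∀ i, ∑ j, D u i j * (u' j - u j) = ∑ l, D u i (κ l) * (u' (κ l) - u (κ l)) := by
    intro i
    rw [← Finset.sum_image (s := univ) (g := κ) (f := fun j => D u i j * (u' j - u j))
      (fun a _ b _ h => hκ h)]
    symm
    refine Finset.sum_subset (Finset.subset_univ _) fun j _ hj => ?_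
    have : j ∉ Set.range κ := by
      rintro ⟨l, rfl⟩
      exact hj (Finset.mem_image_of_mem _ (mem_univ l))
    rw [hp j this, sub_self, mul_zero]
  have he : ∀ i, |∑ l, (Matrix.of fun i j => D u i (κ j)) i l * (u' (κ l) - u (κ l))| ≤
      t + A * M ^ 2 := by
    intro i
    have h1 := hT M hall i
    have h2 := hF i
    rw [hsum] at h1
    simp only [Matrix.of_apply]
    have h3 := abs_sub_abs_le_abs_sub (∑ l, D u i (κ l) * (u' (κ l) - u (κ l)))
      (F u' i - F u i)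
    rw [abs_sub_comm] at h1
    linarith
  have h1 := le_of_det (Matrix.of fun i j => D u i (κ j)) (fun l => u' (κ l) - u (κ l)) hA hδ
    (fun i j => hD i (κ j)) hd he j₀
  rw [← hM, ← hB] at h1
  have h2 : B / δ * (A * M ^ 2) ≤ M / 2 := by
    have h3 : B * A * M ≤ δ / 2 := by
      have : B * A * M ≤ B * A * r := mul_le_mul_of_nonneg_left hMr (by positivity)
      linarith
    rw [div_mul_eq_mul_div, div_le_iff₀ hδ]
    nlinarith
  have h3 : M ≤ 2 * B / δ * t := by
    have : B / δ * (t + A * M ^ 2) = B / δ * t + B / δ * (A * M ^ 2) := by ring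
    rw [this] at h1
    have h4 : 2 * B / δ * t = 2 * (B / δ * t) := by ring
    rw [h4]
    linarith
  refine le_trans ?_ h3
  rw [hM]
  exact hj₀ j (mem_univ j)

/-- The number of integer points of a box. -/
theorem card_box (c : ℕ) (N : ℕ) (y : Fin c → ℤ) :
    (Fintype.piFinset fun j => Finset.Icc (y j - N) (y j + N)).card = (2 * N + 1) ^ c := by
  rw [Fintype.card_piFinset]
  have : ∀ j, (Finset.Icc (y j - (N : ℤ)) (y j + N)).card = 2 * N + 1 := by
    intro j
    rw [Int.card_Icc]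
    omega
  simp [this]

/-- **The fibre lemma.** -/
theorem fib_card (p c : ℕ) {A : ℝ} (hA : 1 ≤ A) {δ : ℝ} (hδ : 0 < δ) (hδ1 : δ ≤ 1)
    (F : (Fin p → ℝ) → Fin c → ℝ) (D : (Fin p → ℝ) → Fin c → Fin p → ℝ) (κ : Fin c → Fin p)
    (hκ : Function.Injective κ) (X : ℕ) (S : Finset (Fin p → ℤ)) (z : Fin c → ℝ)
    (hT : ∀ u u' : Fin p → ℝ, (∀ j, |u j| ≤ 1) → (∀ j, |u' j| ≤ 1) → ∀ M : ℝ,
      (∀ j, |u' j - u j| ≤ M) → ∀ i, |F u' i - F u i - ∑ j, D u i j * (u' j - u j)| ≤ A * M ^ 2)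
    (hD : ∀ u : Fin p → ℝ, (∀ j, |u j| ≤ 1) → ∀ i j, |D u i j| ≤ A)
    (hS : ∀ y ∈ S, ∀ j, |((y j : ℤ) : ℝ)| ≤ 2 ^ X)
    (hd : ∀ y ∈ S, δ ≤ |(Matrix.of fun i j => D (fun l => ((y l : ℤ) : ℝ) / 2 ^ X) i (κ j)).det|)
    (hz : ∀ y ∈ S, ∀ i, |F (fun l => ((y l : ℤ) : ℝ) / 2 ^ X) i - z i| ≤ 1 / 2 ^ X) :
    (S.card : ℝ) ≤ (2 * 2 ^ X + 1) ^ (p - c) *
      ((32 * (c * (c.factorial * A ^ c) + 1) * A / δ) ^ c) ^ 2 := by
  classical
  obtain ⟨B, hB⟩ : ∃ B : ℝ, B = c * (c.factorial * A ^ c) := ⟨_, rfl⟩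
  have hB0 : 0 ≤ B := by rw [hB]; positivity
  rw [← hB]
  have hA0 : 0 < A := zero_lt_one.trans_le hA
  obtain ⟨r, hr⟩ : ∃ r : ℝ, r = δ / (2 * (B + 1) * A) := ⟨_, rfl⟩
  have hr0 : 0 < r := by rw [hr]; positivity
  have hr2 : 2 * B * A * r ≤ δ := by
    rw [hr]
    have : 2 * B * A * (δ / (2 * (B + 1) * A)) = δ * (B / (B + 1)) := by
      field_simp
    rw [this]
    have h1 : B / (B + 1) ≤ 1 := by
      rw [div_le_one (by positivity)]
      linarith
    nlinarith
  have hX0 : (0 : ℝ) < 2 ^ X := by positivity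
  -- the map to the passive coordinates and the cells
  obtain ⟨N, hN⟩ : ∃ N : ℕ, N = ⌈1 / r⌉₊ := ⟨_, rfl⟩
  obtain ⟨R, hR⟩ : ∃ R : ℕ, R = ⌊4 * B / δ⌋₊ := ⟨_, rfl⟩
  let f : (Fin p → ℤ) → (Fin p → ℤ) × (Fin c → ℤ) := fun y =>
    (fun j => if j ∈ Set.range κ then 0 else y j, fun j => ⌊((y (κ j) : ℤ) : ℝ) / (r * 2 ^ X)⌋)
  let T₁ : Finset (Fin p → ℤ) := Fintype.piFinset fun j =>
    if j ∈ Set.range κ then {0} else Finset.Icc (-2 ^ X : ℤ) (2 ^ X)
  let T₂ : Finset (Fin c → ℤ) := Fintype.piFinset fun _ => Finset.Icc (0 - (N : ℤ)) (0 + N)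
  have hT₁ : (T₁.card : ℝ) = (2 * 2 ^ X + 1) ^ (p - c) := by
    have h1 : T₁.card = ∏ j : Fin p, (if j ∈ Set.range κ then 1 else 2 * 2 ^ X + 1) := by
      rw [Fintype.card_piFinset]
      refine Finset.prod_congr rfl fun j _ => ?_
      split_ifs
      · simp
      · rw [Int.card_Icc]
        have : (2 : ℤ) ^ X + 1 - -2 ^ X = ((2 * 2 ^ X + 1 : ℕ) : ℤ) := by
          push_cast
          ring
        rw [this, Int.toNat_natCast]
    rw [h1]
    rw [Finset.prod_ite, Finset.prod_const_one, one_mul, Finset.prod_const]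
    have h2 : (univ.filter fun j : Fin p => j ∉ Set.range κ).card = p - c := by
      have h3 : (univ.filter fun j : Fin p => j ∉ Set.range κ) = (univ.image κ)ᶜ := by
        ext j
        simp
      rw [h3, Finset.card_compl, Finset.card_image_of_injective _ hκ]
      simp
    rw [h2]
    push_cast
    rfl
  have hT₂ : T₂.card = (2 * N + 1) ^ c := card_box c N fun _ => 0
  have hmaps : ∀ y ∈ S, f y ∈ T₁ ×ˢ T₂ := by
    intro y hy
    rw [Finset.mem_product]
    constructor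
    · rw [Fintype.mem_piFinset]
      intro j
      simp only [f]
      split_ifs with hj
      · simp
      · have := abs_le.1 (hS y hy j)
        rw [Finset.mem_Icc]
        constructor
        · have h1 : ((-2 ^ X : ℤ) : ℝ) ≤ (y j : ℝ) := by push_cast; exact this.1
          exact_mod_cast h1
        · have h1 : (y j : ℝ) ≤ ((2 ^ X : ℤ) : ℝ) := by push_cast; exact this.2
          exact_mod_cast h1
    · rw [Fintype.mem_piFinset]
      intro j
      simp only [f]
      have h1 := abs_le.1 (hS y hy (κ j))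
      have h2 : (1 / r : ℝ) ≤ N := by rw [hN]; exact Nat.le_ceil _
      have h3 : ((y (κ j) : ℤ) : ℝ) / (r * 2 ^ X) ≤ 1 / r := by
        rw [div_le_div_iff₀ (by positivity) hr0]
        nlinarith [h1.2]
      have h4 : -(1 / r) ≤ ((y (κ j) : ℤ) : ℝ) / (r * 2 ^ X) := by
        rw [← neg_div, div_le_div_iff₀ hr0 (by positivity)]
        nlinarith [h1.1]
      rw [Finset.mem_Icc]
      constructor
      · rw [zero_sub, Int.le_floor]
        push_cast
        linarith
      · rw [zero_add]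
        exact Int.floor_le_iff.2 (by push_cast; linarith)
  have hfib : ∀ a ∈ S.image f, (S.filter fun x => f x = a).card ≤ (2 * R + 1) ^ c := by
    intro a ha
    obtain ⟨y₀, hy₀, rfl⟩ := Finset.mem_image.1 ha
    rw [← card_box c R fun j => y₀ (κ j)]
    refine Finset.card_le_card_of_injOn (fun y => fun j => y (κ j)) ?_ ?_
    · intro y hy
      have hy' := Finset.mem_coe.1 hy
      rw [Finset.mem_filter] at hy'
      obtain ⟨hyS, hyf⟩ := hy'
      have hf1 := congrArg Prod.fst hyf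
      have hf2 := congrArg Prod.snd hyf
      simp only [f] at hf1 hf2
      have hp : ∀ j, j ∉ Set.range κ → ((y j : ℤ) : ℝ) / 2 ^ X = ((y₀ j : ℤ) : ℝ) / 2 ^ X := by
        intro j hj
        have := congrFun hf1 j
        rw [if_neg hj, if_neg hj] at this
        rw [this]
      have hcell : ∀ j, |((y (κ j) : ℤ) : ℝ) / 2 ^ X - ((y₀ (κ j) : ℤ) : ℝ) / 2 ^ X| ≤ r := by
        intro j
        have h1 := congrFun hf2 j
        have h2 := Int.abs_sub_lt_one_of_floor_eq_floor h1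
        have h3 : ((y (κ j) : ℤ) : ℝ) / (r * 2 ^ X) - ((y₀ (κ j) : ℤ) : ℝ) / (r * 2 ^ X) =
            (((y (κ j) : ℤ) : ℝ) / 2 ^ X - ((y₀ (κ j) : ℤ) : ℝ) / 2 ^ X) / r := by
          field_simp
        rw [h3, abs_div, abs_of_pos hr0, div_lt_one hr0] at h2
        exact h2.le
      have hbd : ∀ y ∈ S, ∀ j, |((y j : ℤ) : ℝ) / 2 ^ X| ≤ 1 := by
        intro y hy j
        rw [abs_div, abs_of_pos hX0, div_le_one hX0]
        exact hS y hy j
      have hF : ∀ i, |F (fun l => ((y l : ℤ) : ℝ) / 2 ^ X) i -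
          F (fun l => ((y₀ l : ℤ) : ℝ) / 2 ^ X) i| ≤ 2 * (1 / 2 ^ X) := by
        intro i
        have h1 := abs_le.1 (hz y hyS i)
        have h2 := abs_le.1 (hz y₀ hy₀ i)
        rw [abs_le]
        constructor <;> linarith [h1.1, h1.2, h2.1, h2.2]
      have hnear := near_of_cell (r := r) hA hδ (t := 2 * (1 / 2 ^ X)) F D κ hκ
        (fun l => ((y₀ l : ℤ) : ℝ) / 2 ^ X) (fun l => ((y l : ℤ) : ℝ) / 2 ^ X)
        (fun M hM => hT _ _ (hbd y₀ hy₀) (hbd y hyS) M hM) (hD _ (hbd y₀ hy₀)) (hd y₀ hy₀) hF hp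
        (by rw [← hB]; exact hr2) hcell
      rw [← hB] at hnear
      simp only [Finset.mem_coe]
      rw [Fintype.mem_piFinset]
      intro j
      have h1 := hnear j
      have h2 : |((y (κ j) : ℤ) : ℝ) - ((y₀ (κ j) : ℤ) : ℝ)| ≤ 4 * B / δ := by
        have h3 : ((y (κ j) : ℤ) : ℝ) / 2 ^ X - ((y₀ (κ j) : ℤ) : ℝ) / 2 ^ X =
            (((y (κ j) : ℤ) : ℝ) - ((y₀ (κ j) : ℤ) : ℝ)) / 2 ^ X := by ring
        rw [h3, abs_div, abs_of_pos hX0, div_le_iff₀ hX0] at h1
        have h4 : 2 * B / δ * (2 * (1 / 2 ^ X)) * 2 ^ X = 4 * B / δ := by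
          field_simp
          ring
        rw [h4] at h1
        exact h1
      have h3 : |y (κ j) - y₀ (κ j)| ≤ (R : ℤ) := by
        have h4 : ((|y (κ j) - y₀ (κ j)| : ℤ) : ℝ) ≤ 4 * B / δ := by
          push_cast
          exact h2
        have h5 : (|y (κ j) - y₀ (κ j)|).toNat ≤ R := by
          rw [hR]
          refine Nat.le_floor ?_
          have h6 : (((|y (κ j) - y₀ (κ j)|).toNat : ℤ) : ℝ) = ((|y (κ j) - y₀ (κ j)| : ℤ) : ℝ) := by
            rw [Int.toNat_of_nonneg (abs_nonneg _)]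
          have h7 : (((|y (κ j) - y₀ (κ j)|).toNat : ℕ) : ℝ) =
            (((|y (κ j) - y₀ (κ j)|).toNat : ℤ) : ℝ) := by norm_cast
          rw [h7, h6]
          exact h4
        omega
      rw [Finset.mem_Icc]
      have := abs_le.1 h3
      constructor <;> linarith [this.1, this.2]
    · intro y hy y' hy' h
      have hy1 := (Finset.mem_filter.1 (Finset.mem_coe.1 hy)).2
      have hy2 := (Finset.mem_filter.1 (Finset.mem_coe.1 hy')).2
      have hf1 := congrArg Prod.fst (hy1.trans hy2.symm)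
      simp only [f] at hf1
      funext j
      by_cases hj : j ∈ Set.range κ
      · obtain ⟨l, rfl⟩ := hj
        exact congrFun h l
      · have := congrFun hf1 j
        rwa [if_neg hj, if_neg hj] at this
  have hcard : S.card ≤ (2 * R + 1) ^ c * (T₁.card * T₂.card) := by
    refine (Finset.card_le_mul_card_image S _ hfib).trans ?_
    refine Nat.mul_le_mul_left _ ?_
    rw [← Finset.card_product]
    refine Finset.card_le_card fun a ha => ?_
    obtain ⟨y, hy, rfl⟩ := Finset.mem_image.1 ha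
    exact hmaps y hy
  have hcard' : (S.card : ℝ) ≤ (2 * R + 1) ^ c * ((2 * 2 ^ X + 1) ^ (p - c) * (2 * N + 1) ^ c) := by
    have h1 : (S.card : ℝ) ≤ (((2 * R + 1) ^ c * (T₁.card * T₂.card) : ℕ) : ℝ) := by
      exact_mod_cast hcard
    rw [hT₂] at h1
    push_cast at h1
    rw [hT₁] at h1
    exact h1
  have hQ : 1 ≤ 32 * (B + 1) * A / δ := by
    rw [le_div_iff₀ hδ]
    nlinarith
  have h1 : (2 * (R : ℝ) + 1) ≤ 32 * (B + 1) * A / δ := by
    have h2 : (R : ℝ) ≤ 4 * B / δ := by rw [hR]; exact Nat.floor_le (by positivity)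
    have h3 : 2 * (4 * B / δ) + 1 ≤ 32 * (B + 1) * A / δ := by
      rw [le_div_iff₀ hδ]
      have h4 : (2 * (4 * B / δ) + 1) * δ = 8 * B + δ := by
        field_simp
        ring
      rw [h4]
      nlinarith [mul_nonneg hB0 hA0.le]
    linarith
  have h2 : (2 * (N : ℝ) + 1) ≤ 32 * (B + 1) * A / δ := by
    have h3 : (N : ℝ) ≤ 1 / r + 1 := by
      rw [hN]
      exact (Nat.ceil_lt_add_one (by positivity)).le
    have h4 : 1 / r = 2 * (B + 1) * A / δ := by
      rw [hr, one_div_div]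
    rw [h4] at h3
    have h5 : 2 * (2 * (B + 1) * A / δ + 1) + 1 ≤ 32 * (B + 1) * A / δ := by
      rw [le_div_iff₀ hδ]
      have h6 : (2 * (2 * (B + 1) * A / δ + 1) + 1) * δ = 4 * (B + 1) * A + 3 * δ := by
        field_simp
        ring
      rw [h6]
      nlinarith [mul_nonneg hB0 hA0.le]
    linarith
  calc (S.card : ℝ) ≤ (2 * R + 1) ^ c * ((2 * 2 ^ X + 1) ^ (p - c) * (2 * N + 1) ^ c) := hcard'
    _ ≤ (32 * (B + 1) * A / δ) ^ c * ((2 * 2 ^ X + 1) ^ (p - c) *
        (32 * (B + 1) * A / δ) ^ c) := by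
      gcongr
    _ = _ := by ring

end Pool.KG
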