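import Pool.Agent.H32.Dense.EntX
import Pool.Agent.H54.KVA.Defs2

/-!
# LEMMA LOST: the telescope with lost digits

`G i` are contexts along a path, `V i` blocks, and the step from `G i` to `G (i + 1)` may lose the
digits `L i`: `(G (i + 1), L i)` determines `(G i, V i)`. One variable `Y` can be correlated only
with few of the blocks, up to its correlation with the lost digits.
-/

set_option autoImplicit false

namespace Pool.KG

open Finset Real
open Pool.Agent.H49.Ent Pool.Agent.H32.Dense Pool.STK Pool.KVA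

variable {Ω : Type} [Fintype Ω]

/-- `I(A; B | b) = H(A | b) - H(A | B, b)`. -/
theorem mi_sub {S T U : Type} {p : Ω → ℝ} (hp : ∀ ω, 0 ≤ p ω) (A : Ω → S) (B : Ω → T)
    (b : Ω → U) : MI p A B b = CH p A b - CH p A (fun ω => (B ω, b ω)) := by
  unfold MI
  rw [CH_chain hp]
  ring

/-- Symmetry. -/
theorem mi_symm {S T U : Type} {p : Ω → ℝ} (hp : ∀ ω, 0 ≤ p ω) (A : Ω → S) (B : Ω → T)
    (b : Ω → U) : MI p A B b = MI p B A b := by
  unfold MI
  have : CH p (fun ω => (A ω, B ω)) b = CH p (fun ω => (B ω, A ω)) b := by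
    refine CH_congr hp ?_ ?_ (fun _ _ _ _ h => h) (fun _ _ _ _ h => h) <;>
    · intro ω ω' _ _ h
      simp only [Prod.mk.injEq] at h ⊢
      tauto
  rw [this]
  ring

theorem mi_nonneg {S T U : Type} {p : Ω → ℝ} (hp : ∀ ω, 0 ≤ p ω) (A : Ω → S) (B : Ω → T)
    (b : Ω → U) : 0 ≤ MI p A B b := by
  have := CH_subadd hp A B b
  unfold MI
  linarith

/-- Monotony in the block. -/
theorem mi_mono {S T T' U : Type} {p : Ω → ℝ} (hp : ∀ ω, 0 ≤ p ω) (A : Ω → S) {B : Ω → T}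
    {B' : Ω → T'} {b : Ω → U} (h : Det p (fun ω => (B' ω, b ω)) B) :
    MI p A B b ≤ MI p A B' b := by
  rw [mi_sub hp, mi_sub hp]
  have := CH_mono_cond hp (X := A) (W' := fun ω => (B' ω, b ω)) (W := fun ω => (B ω, b ω))
    (fun ω ω' h1 h2 h3 => Prod.ext (h ω ω' h1 h2 h3) (Prod.ext_iff.mp h3).2)
  linarith

/-- One step of the telescope. -/
theorem lost_step {S A B C D : Type} {p : Ω → ℝ} (hp : ∀ ω, 0 ≤ p ω) (Y : Ω → S) {G : Ω → A}
    {G' : Ω → B} {V : Ω → C} {L : Ω → D}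
    (h : Det p (fun ω => (L ω, G' ω)) (fun ω => (V ω, G ω))) :
    MI p Y V G ≤ CH p Y G - CH p Y G' + MI p Y L G' := by
  rw [mi_sub hp, mi_sub hp]
  have := CH_mono_cond hp (X := Y) h
  linarith

/-- **LEMMA LOST.** -/
theorem lost {S : Type} {A C D : ℕ → Type} {p : Ω → ℝ} (hp : ∀ ω, 0 ≤ p ω) (Y : Ω → S)
    (G : ∀ i, Ω → A i) (V : ∀ i, Ω → C i) (L : ∀ i, Ω → D i) (n : ℕ)
    (h : ∀ i < n, Det p (fun ω => (L i ω, G (i + 1) ω)) (fun ω => (V i ω, G i ω))) :
    ∑ i ∈ range n, MI p Y (V i) (G i) ≤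
      CH p Y (G 0) - CH p Y (G n) + ∑ i ∈ range n, MI p Y (L i) (G (i + 1)) := by
  induction n with
  | zero => simp
  | succ n ih =>
    rw [sum_range_succ, sum_range_succ]
    have h1 := ih fun i hi => h i (hi.trans (Nat.lt_succ_self n))
    have h2 := lost_step hp Y (h n (Nat.lt_succ_self n))
    linarith

/-- The same, with the bound `H(Y | G 0)`. -/
theorem lost' {S : Type} {A C D : ℕ → Type} {p : Ω → ℝ} (hp : ∀ ω, 0 ≤ p ω) (Y : Ω → S)
    (G : ∀ i, Ω → A i) (V : ∀ i, Ω → C i) (L : ∀ i, Ω → D i) (n : ℕ)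
    (h : ∀ i < n, Det p (fun ω => (L i ω, G (i + 1) ω)) (fun ω => (V i ω, G i ω))) :
    ∑ i ∈ range n, MI p Y (V i) (G i) ≤
      CH p Y (G 0) + ∑ i ∈ range n, MI p Y (L i) (G (i + 1)) := by
  have h1 := lost hp Y G V L n h
  have h2 := CH_nonneg hp Y (G n)
  linarith

/-- Without lost digits: the contexts are nested and contain the blocks of the steps before. -/
theorem nested {S : Type} {A C : ℕ → Type} {p : Ω → ℝ} (hp : ∀ ω, 0 ≤ p ω) (Y : Ω → S)
    (G : ∀ i, Ω → A i) (V : ∀ i, Ω → C i) (n : ℕ)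
    (h : ∀ i < n, Det p (G (i + 1)) (fun ω => (V i ω, G i ω))) :
    ∑ i ∈ range n, MI p Y (V i) (G i) ≤ CH p Y (G 0) - CH p Y (G n) := by
  have h1 := lost hp Y G V (fun _ _ => ()) n fun i hi ω ω' a b hh =>
    h i hi ω ω' a b (Prod.ext_iff.mp hh).2
  have h2 : ∀ i, MI p Y (fun _ : Ω => ()) (G (i + 1)) = 0 := by
    intro i
    rw [mi_sub hp]
    have : CH p Y (fun ω => ((), G (i + 1) ω)) = CH p Y (G (i + 1)) :=
      CH_congr hp (fun _ _ _ _ h => (Prod.ext_iff.mp h).1) (fun _ _ _ _ h => (Prod.ext_iff.mp h).1)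
        (fun _ _ _ _ h => (Prod.ext_iff.mp h).2)
        (fun _ _ _ _ h => Prod.ext rfl h)
    rw [this, sub_self]
  simp only [h2, sum_const_zero, add_zero] at h1
  exact h1

/-- Change of the side information by a variable of small entropy. -/
theorem mi_cost {S T U W : Type} {p : Ω → ℝ} (hp : ∀ ω, 0 ≤ p ω) (A : Ω → S) (B : Ω → T)
    (b : Ω → U) (w : Ω → W) :
    MI p A B (fun ω => (w ω, b ω)) ≤ MI p A B b + CH p w b := by
  have h1 := CH_mono_cond hp (X := A) (W' := fun ω => (w ω, b ω)) (W := b)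
    (fun _ _ _ _ h => (Prod.ext_iff.mp h).2)
  have h2 : CH p A (fun ω => (B ω, b ω)) ≤
      CH p w (fun ω => (B ω, b ω)) + CH p A (fun ω => (w ω, (B ω, b ω))) :=
    CH_le_add hp A w fun ω => (B ω, b ω)
  have h3 := CH_mono_cond hp (X := w) (W' := fun ω => (B ω, b ω)) (W := b)
    (fun _ _ _ _ h => (Prod.ext_iff.mp h).2)
  have h4 : CH p A (fun ω => (w ω, (B ω, b ω))) = CH p A (fun ω => (B ω, (w ω, b ω))) := by
    refine CH_congr hp ?_ ?_ ?_ ?_ <;>
    · intro ω ω' _ _ h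
      simp only [Prod.mk.injEq] at h ⊢
      tauto
  rw [mi_sub hp, mi_sub hp]
  rw [h4] at h2
  linarith

/-- Chain rule for the mutual information. -/
theorem mi_chain {S T T' U : Type} {p : Ω → ℝ} (hp : ∀ ω, 0 ≤ p ω) (A : Ω → S) (B : Ω → T)
    (B' : Ω → T') (b : Ω → U) :
    MI p A (fun ω => (B ω, B' ω)) b = MI p A B' b + MI p A B (fun ω => (B' ω, b ω)) := by
  rw [mi_sub hp, mi_sub hp, mi_sub hp]
  have : CH p A (fun ω => ((B ω, B' ω), b ω)) = CH p A (fun ω => (B ω, (B' ω, b ω))) := by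
    refine CH_congr hp ?_ ?_ ?_ ?_ <;>
    · intro ω ω' _ _ h
      simp only [Prod.mk.injEq] at h ⊢
      tauto
  rw [this]
  ring

end Pool.KG
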